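import Mathlib
import Pool.Agent.H534R2.FOSTC
import Pool.Agent.H534R2.HFree

namespace Pool.Agent.H534R2

/-- Let `H` be a graph that is an induced subgraph of a disjoint union of finitely many paths on
four vertices.  Then one formula of (order-free) `FO(STC)` defines directed reachability on all
digraphs, finite or infinite, whose underlying undirected graph has no induced copy of `H`. -/
theorem _root_.Pool.Agent.H870R2.Moved.HFreeReachabilityE46137.result
    {W : Type} (H : SimpleGraph W) (t : ℕ) (hH : Nonempty (H ↪g tP4 t)) :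
    ∃ φ : Fm 2, ∀ (V : Type) (E : V → V → Prop), IsEmpty (H ↪g under E) →
      ∀ s d : V, φ.Holds E ![s, d] ↔ Relation.ReflTransGen E s d := by
  obtain ⟨f⟩ := hH
  rcases Nat.eq_zero_or_pos t with h0 | hpos
  · subst h0
    refine ⟨.eq 0 0, fun V E hE s d => ?_⟩
    exfalso
    have hW : IsEmpty W := ⟨fun w => (f w).1.elim0⟩
    exact hE.false ⟨⟨fun w => (hW.false w).elim, fun w => (hW.false w).elim⟩,
      fun {w} => (hW.false w).elim⟩
  · obtain ⟨φ, hφ⟩ := dfn_reach_tP4 t hpos
    refine ⟨φ, fun V E hE s d => hφ V E ?_ s d⟩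
    intro h
    obtain ⟨g⟩ := h.embed
    exact hE.false (f.trans g)

end Pool.Agent.H534R2
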