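import Pool.Agent.H529R2.Maj

/-!
# P versus ZPP: the majority normal form

A language `L` is in `ZPP = RP ∩ coRP` if and only if it has a randomized polynomial-time machine
whose sets `A_x` of accepted coin strings are increasing and comparable with the majority function:
`A_x` contains the majority function, and all but a fraction `2^{-q(|x|)}` of all coin strings, if
`x ∈ L`, and `A_x` is contained in the majority function, and contains at most a fraction
`2^{-q(|x|)}` of all coin strings, if `x ∉ L`.
-/

namespace Pool.Agent.H870R2.Moved.MajorityForm34c247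

open Finset Pool.Agent.NPC Pool.Agent.H529R2

/-- The class `ZPP = RP ∩ coRP`. -/
def InZPP (L : Set (List Bool)) : Prop := InRP L ∧ InRP Lᶜ

/-- The majority form: for some polynomial `b` and every polynomial `q` there is a polynomial-time
machine with an odd polynomial number `m ≤ b(|x|) (q(|x|) + 1)` of coins whose accepted sets are
increasing; they contain the majority function and all but at most `2^{m - q(|x|)}` strings if
`x ∈ L`; they are contained in the majority function and have at most `2^{m - q(|x|)}` elements if
`x ∉ L`. -/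
def ZMajorityForm (L : Set (List Bool)) : Prop :=
  ∃ b : Polynomial ℕ, ∀ q : Polynomial ℕ,
    ∃ (V : List Bool → List Bool) (p : Polynomial ℕ), PolyTime V ∧
    (∀ n, Odd (p.eval n) ∧ p.eval n ≤ b.eval n * (q.eval n + 1)) ∧ ∀ x : List Bool,
      (∀ r s : Fin (p.eval x.length) → Bool, r ≤ s →
        r ∈ accepts V x (p.eval x.length) → s ∈ accepts V x (p.eval x.length)) ∧
      (x ∈ L → majority (p.eval x.length) ⊆ accepts V x (p.eval x.length) ∧
        (accepts V x (p.eval x.length))ᶜ.card * 2 ^ q.eval x.length ≤ 2 ^ p.eval x.length) ∧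
      (x ∉ L → accepts V x (p.eval x.length) ⊆ majority (p.eval x.length) ∧
        (accepts V x (p.eval x.length)).card * 2 ^ q.eval x.length ≤ 2 ^ p.eval x.length)

theorem coins_le (P q : Polynomial ℕ) (n : ℕ) : (2 * hP P (q + 1) + 1 : Polynomial ℕ).eval n ≤
    (2048 * (bP P) ^ 5 + 1 : Polynomial ℕ).eval n * (q.eval n + 1) := by
  have h1 : (2 * hP P (q + 1) + 1 : Polynomial ℕ).eval n = 2 * (hP P (q + 1)).eval n + 1 := by
    simp
  have h2 : (2048 * (bP P) ^ 5 + 1 : Polynomial ℕ).eval n = 2048 * ((bP P).eval n) ^ 5 + 1 := by
    simp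
  have h3 : (q + 1).eval n = q.eval n + 1 := by simp
  rw [h1, h2, hP_eval, h3]
  generalize (bP P).eval n ^ 5 = c
  generalize q.eval n = d
  nlinarith [Nat.zero_le (c * d)]

theorem form_of_inZPP {L : Set (List Bool)} (hL : InZPP L) : ZMajorityForm L := by
  obtain ⟨p1, hp1⟩ := master hL.1
  obtain ⟨p0, hp0⟩ := master hL.2
  set P : Polynomial ℕ := p1 + p0 + 1 with hPdef
  refine ⟨2048 * (bP P) ^ 5 + 1, fun q => ?_⟩
  obtain ⟨e, he, heL⟩ := hp1 P (by intro n; rw [hPdef]; simp; omega)
    (by intro n; rw [hPdef]; simp) (q + 1)
  obtain ⟨g, hg, hgL⟩ := hp0 P (by intro n; rw [hPdef]; simp; omega)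
    (by intro n; rw [hPdef]; simp) (q + 1)
  refine ⟨fun y => [decide ((hP P (q + 1)).eval (unpair y).1.length + 1 +
    g (unpair y).1 (unpair y).2 ≤ ones (unpair y).2 + e (unpair y).1 (unpair y).2)],
    2 * hP P (q + 1) + 1, ?_, ?_, ?_⟩
  · exact polyTime_of_poly (Poly.decide_le (Poly.add (Poly.succ (UPoly.toPoly
      (UPoly.eval (UPoly.length (Poly.fst poly_unpair)) _))) (hg.comp poly_unpair))
      (Poly.add (poly_ones (Poly.snd poly_unpair)) (he.comp poly_unpair)))
  · intro n
    exact ⟨by simp, coins_le _ _ _⟩
  · intro x
    obtain ⟨m, hm⟩ : ∃ m, m = (2 * hP P (q + 1) + 1 : Polynomial ℕ).eval x.length := ⟨_, rfl⟩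
    have hm' : m = 2 * (hP P (q + 1)).eval x.length + 1 := by rw [hm]; simp
    rw [← hm]
    obtain ⟨h1, h2, _, h4, _, h6⟩ := heL x m hm'
    obtain ⟨g1, g2, g3, g4, g5, _⟩ := hgL x m hm'
    obtain ⟨h, hh⟩ : ∃ h, h = (hP P (q + 1)).eval x.length := ⟨_, rfl⟩
    obtain ⟨d, hd⟩ : ∃ d, d = (dP P (q + 1)).eval x.length := ⟨_, rfl⟩
    rw [← hh] at hm'
    rw [← hd] at h4 h6 g4 g5
    have hdpos : 0 < d := by rw [hd]; exact dP_pos (by rw [hPdef]; simp)
    have hmem : ∀ r : Fin m → Bool, r ∈ accepts (fun y =>
        [decide ((hP P (q + 1)).eval (unpair y).1.length + 1 +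
        g (unpair y).1 (unpair y).2 ≤ ones (unpair y).2 + e (unpair y).1 (unpair y).2)]) x m ↔
        h + 1 + g x (List.ofFn r) ≤ wt r + e x (List.ofFn r) := by
      intro r
      rw [mem_accepts]
      simp only [unpair_pairBits, ones_ofFn, ← hh, List.cons.injEq, and_true, decide_eq_true_eq]
    have h10 : (q + 1).eval x.length = q.eval x.length + 1 := by simp
    rw [h10, pow_succ] at h4 h6 g4 g5
    by_cases hx : x ∈ L
    · have g1' := g1 (fun hx' => hx' hx)
      refine ⟨?_, fun _ => ⟨?_, ?_⟩, fun hx' => absurd hx hx'⟩
      · intro r s hrs hr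
        rw [hmem] at hr ⊢
        have h7 := h2 r s hrs
        have h8 := g1' r
        have h9 := g1' s
        omega
      · intro r hr
        rw [mem_majority] at hr
        rw [hmem]
        have h8 := g1' r
        omega
      · have h7 : (accepts (fun y => [decide ((hP P (q + 1)).eval (unpair y).1.length + 1 +
            g (unpair y).1 (unpair y).2 ≤ ones (unpair y).2 + e (unpair y).1 (unpair y).2)])
            x m)ᶜ ⊆ univ.filter (fun r : Fin m → Bool => e x (List.ofFn r) ≤ 2 * d) ∪
            univ.filter (fun r : Fin m → Bool => 2 * wt r + 2 * d ≤ m) := by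
          intro r hr
          rw [mem_compl, hmem] at hr
          rw [mem_union, mem_filter, mem_filter]
          have h8 := g1' r
          by_cases h9 : e x (List.ofFn r) ≤ 2 * d
          · exact Or.inl ⟨mem_univ _, h9⟩
          · refine Or.inr ⟨mem_univ _, ?_⟩
            omega
        have h8 := (card_le_card h7).trans (card_union_le _ _)
        have h9 := h4 hx
        have h11 := Nat.mul_le_mul_right (2 ^ q.eval x.length) h8
        rw [add_mul] at h11
        linarith
    · have h1' := h1 hx
      refine ⟨?_, fun hx' => absurd hx' hx, fun _ => ⟨?_, ?_⟩⟩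
      · intro r s hrs hr
        rw [hmem] at hr ⊢
        have h7 := g2 (neg s) (neg r) (neg_le_neg hrs)
        rw [g3, g3] at h7
        have h8 := wt_neg r
        have h9 := wt_neg s
        have h11 := h1' r
        have h12 := h1' s
        omega
      · intro r hr
        rw [hmem] at hr
        rw [mem_majority]
        have h8 := h1' r
        omega
      · have h7 : accepts (fun y => [decide ((hP P (q + 1)).eval (unpair y).1.length + 1 +
            g (unpair y).1 (unpair y).2 ≤ ones (unpair y).2 + e (unpair y).1 (unpair y).2)])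
            x m ⊆ univ.filter (fun r : Fin m → Bool => g x (List.ofFn r) ≤ 2 * d) ∪
            univ.filter (fun r : Fin m → Bool => m + 2 * d ≤ 2 * wt r) := by
          intro r hr
          rw [hmem] at hr
          rw [mem_union, mem_filter, mem_filter]
          have h8 := h1' r
          by_cases h9 : g x (List.ofFn r) ≤ 2 * d
          · exact Or.inl ⟨mem_univ _, h9⟩
          · refine Or.inr ⟨mem_univ _, ?_⟩
            omega
        have h8 := (card_le_card h7).trans (card_union_le _ _)
        have h9 := g4 hx
        have h11 := Nat.mul_le_mul_right (2 ^ q.eval x.length) h8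
        rw [add_mul] at h11
        linarith

theorem inZPP_of_form {L : Set (List Bool)} (h : ZMajorityForm L) : InZPP L := by
  obtain ⟨b, hb⟩ := h
  obtain ⟨V, p, hV, hodd, hVL⟩ := hb 2
  have hpV := H622R2.poly_of_polyTime hV
  have h2e : ∀ n : ℕ, (2 : Polynomial ℕ).eval n = 2 := by intro n; simp
  constructor
  · refine inRP_of_quarter (V := fun y =>
      [decide (V (pairBits (unpair y).1 (unpair y).2) = [true]) &&
      decide (2 * ones (unpair y).2 ≤ (unpair y).2.length)]) (p := p) ?_ ?_
    · exact polyTime_of_poly (Poly.and (Poly.decide_eq (hpV.comp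
        (H622R2.poly_pairBits (Poly.fst poly_unpair) (Poly.snd poly_unpair))) (NPC.Poly.const _))
        (Poly.decide_le (Poly.mul (NPC.Poly.const 2) (poly_ones (Poly.snd poly_unpair)))
          (Poly.length (Poly.snd poly_unpair))))
    · intro x
      obtain ⟨m, hm⟩ : ∃ m, m = p.eval x.length := ⟨_, rfl⟩
      obtain ⟨_, h2, h3⟩ := hVL x
      rw [← hm, h2e] at h2 h3
      rw [← hm]
      have hacc : accepts (fun y => [decide (V (pairBits (unpair y).1 (unpair y).2) = [true]) &&
          decide (2 * ones (unpair y).2 ≤ (unpair y).2.length)]) x m =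
          accepts V x m \ majority m := by
        ext r
        rw [mem_accepts, mem_sdiff, mem_majority, mem_accepts]
        simp only [unpair_pairBits, ones_ofFn, List.length_ofFn, List.cons.injEq, and_true,
          Bool.and_eq_true, decide_eq_true_eq, not_lt]
      rw [hacc]
      constructor
      · intro hx
        exact sdiff_eq_empty_iff_subset.2 (h3 hx).1
      · intro hx
        have h4 := (h2 hx).2
        have h5 := card_majority_le m
        have h6 := card_add_card_compl (accepts V x m)
        simp only [Fintype.card_fun, Fintype.card_bool, Fintype.card_fin] at h6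
        have h7 := le_card_sdiff (majority m) (accepts V x m)
        omega
  · refine inRP_of_quarter (V := fun y =>
      [decide (¬ V (pairBits (unpair y).1 (unpair y).2) = [true]) &&
      decide ((unpair y).2.length + 1 ≤ 2 * ones (unpair y).2)]) (p := p) ?_ ?_
    · exact polyTime_of_poly (Poly.and (Poly.decide_not (Poly.decide_eq (hpV.comp
        (H622R2.poly_pairBits (Poly.fst poly_unpair) (Poly.snd poly_unpair))) (NPC.Poly.const _)))
        (Poly.decide_le (Poly.succ (Poly.length (Poly.snd poly_unpair)))
          (Poly.mul (NPC.Poly.const 2) (poly_ones (Poly.snd poly_unpair)))))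
    · intro x
      obtain ⟨m, hm⟩ : ∃ m, m = p.eval x.length := ⟨_, rfl⟩
      obtain ⟨_, h2, h3⟩ := hVL x
      have hm_odd : Odd m := by rw [hm]; exact (hodd _).1
      rw [← hm, h2e] at h2 h3
      rw [← hm]
      have hacc : accepts (fun y => [decide (¬ V (pairBits (unpair y).1 (unpair y).2) = [true]) &&
          decide ((unpair y).2.length + 1 ≤ 2 * ones (unpair y).2)]) x m =
          majority m \ accepts V x m := by
        ext r
        rw [mem_accepts, mem_sdiff, mem_majority, mem_accepts]
        simp only [unpair_pairBits, ones_ofFn, List.length_ofFn, List.cons.injEq, and_true,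
          Bool.and_eq_true, decide_eq_true_eq]
        constructor
        · rintro ⟨h8, h9⟩
          exact ⟨by omega, h8⟩
        · rintro ⟨h8, h9⟩
          exact ⟨h9, by omega⟩
      rw [hacc]
      constructor
      · intro hx
        have hx' : x ∈ L := by
          by_contra h8
          exact hx h8
        exact sdiff_eq_empty_iff_subset.2 (h2 hx').1
      · intro hx
        have h4 := (h3 hx).2
        have h5 := card_majority_odd hm_odd
        have h7 := le_card_sdiff (accepts V x m) (majority m)
        omega

/-- The majority normal form for `ZPP`. -/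
theorem result (L : Set (List Bool)) : InZPP L ↔ ZMajorityForm L :=
  ⟨form_of_inZPP, inZPP_of_form⟩

end Pool.Agent.H870R2.Moved.MajorityForm34c247
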