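import Mathlib
import Pool.Agent.H468R2.Mult.Defs
import Pool.Agent.H468R2.Mult.Main

/-!
# Integer multiplication needs circuits of large treewidth or superlinear size

Every fan-in-two circuit (arbitrary gates) multiplying two `n`-bit numbers whose gate graph (the
inputs are deleted, so that they may be read any number of times) has treewidth at most `t`
satisfies `n ² ≤ 768 (t + 1) L log₂ (8 L / n)`, where `L` is the number of wires leaving the bits
of the first factor; `L` is at most twice the number of gates.
-/

namespace Pool.Agent.H870R2.Moved.MultiplicationTreewidth22d2c8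

open Pool.Agent.H468R2.Mult

theorem result (n t : ℕ) (hn : 8 ≤ n) (C : Circuit (Fin n ⊕ Fin n) (Fin (2 * n)))
    (hC : C.Computes (mul n)) (hT : HasTreeDec C.adj t) :
    (n : ℝ) ^ 2 ≤ 768 * (t + 1) * C.leftWires * Real.logb 2 (8 * C.leftWires / n) :=
  mul_bound C hC hn t hT

end Pool.Agent.H870R2.Moved.MultiplicationTreewidth22d2c8
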