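import Mathlib
import Pool.Agent.H534R2.Dicut
import Pool.Agent.H534R2.DicutLemmas

namespace Pool.Agent.H534R2

/-- For every `k` one formula of (order-free) `FO(STC)` defines directed reachability on all finite
digraphs whose directed cuts have at most `k` arcs; in particular on those of total imbalance
`∑ max (indeg - outdeg) 0 ≤ k` (for `k = 0`: Eulerian digraphs), and on those whose arcs are covered
by `k` directed walks. -/
theorem _root_.Pool.Agent.H870R2.Moved.NearlyEulerian92893d.result (k : ℕ) :
    ∃ φ : Fm 2, ∀ (V : Type) (_ : Fintype V) (E : V → V → Prop),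
      (ImbalanceBound k E ∨ WalkCover k E ∨ DicutBound k E) →
      ∀ s t : V, φ.Holds E ![s, t] ↔ Relation.ReflTransGen E s t := by
  obtain ⟨φ, hφ⟩ := dfn_dicut k
  refine ⟨φ, fun V hV E hE s t => ?_⟩
  have hD : DicutBound k E := by
    rcases hE with h | h | h
    · exact DicutBound.of_imbalance h
    · exact DicutBound.of_walkCover h
    · exact h
  rw [hφ]
  exact (reach_iff_dicut E k hD s t).symm

end Pool.Agent.H534R2
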