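import Pool.Agent.H548R2.Main

/-!
Exponential lower bound for counting models by deterministic decomposable circuits with
negation and exclusive-or gates.
-/

namespace Pool.Agent.H870R2.Moved.NegationCircuits4ed1f9

open Pool.Agent.H548R2 Finset

theorem result (d D : ℕ) (hD : 2 ≤ D) : ∃ C : ℕ, ∀ n : ℕ, 1 ≤ n →
    ∃ (V : Type) (_ : Fintype V) (_ : DecidableEq V) (φ : CNF V),
      Fintype.card V ≤ C * n ∧ φ.length ≤ C * n ∧ (∀ K ∈ φ, K.length ≤ C) ∧
      (∀ v, Occurs v φ) ∧ 0 < modelCount φ ∧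
      ∀ (J : Type) (_ : Fintype J) (coef : J → ℝ) (Ψ : J → (V → Bool) → ℝ) (G : J → Circuit V),
        (∀ j, IsLocal d (Ψ j)) → (∀ j, (G j).Valid D) →
        ∑ a, |indicator φ a - ∑ j, coef j * Ψ j a * (if (G j).val (G j).out a then 1 else 0)|
          ≤ (1 - (1 / 2) ^ n) * modelCount φ →
        (2 : ℝ) ^ n ≤ ∑ j, |coef j| * (G j).size * (G j).chains D (G j).out ∧
        ∀ j, (G j).chains D (G j).out ≤ (2 * (G j).size + 1) ^ (G j).nest D (G j).out :=
  main d D hD

end Pool.Agent.H870R2.Moved.NegationCircuits4ed1f9
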