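import Pool.Agent.H529R2.SymPer.FunUpper
set_option autoImplicit false

/-! # Counting signed perfect matchings by circuits which are symmetric under sign changes

The permanent of a matrix with entries `0, 1, -1` counts the perfect matchings of a bipartite graph
with signs.  `IsCircuit D k rank g`: for inputs in the set `D` of integer matrices the functions `g v`
are the results of gates `l + p q`, where `l, p, q` are linear combinations of earlier results and of
arbitrary functions which, for every zero pattern of a signed permutation matrix, depend on at most `k`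
signs.  `IsSymmetric D k g C`: the results are permuted by the sign changes (of rows and columns) in
`C`, up to scalars and functions of at most `k` signs. -/

namespace Pool.Agent.H870R2.Moved.SignSymmetricCounting381749

open H529R2.SymPer.Fn

/-- Let `F` be a field with `2 ≠ 0`, `n ≥ 1`, and let the set `D` of inputs contain the signed
permutation matrices `sp a σ` (for instance, let `D` be the set of all matrices with entries
`0, 1, -1`).

(1) Let `2 k ≤ m < n` and let `C` be a `4 m`-wise independent group of sign vectors on the rows and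
columns.  A circuit which is symmetric under `C` and computes a function of full degree has at least
`n.choose d` gates for some `d` with `m / 2 < d ≤ m`.

(2) If it is symmetric under all sign changes, it has at least `n.choose (n / 3)` gates, and at
least `3 ^ n / ((n + 1) 2 ^ (n - n / 3))`, i.e. about `2 ^ (0.918 n)`, even if all functions of at most
`n / 3` signs are free.

(3) The permanent, the sign of the permanent and the determinant have full degree.

(4) The permanent of all integer matrices is computed by a circuit with `n 2 ^ n` gates which is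
symmetric under all sign changes, with `k = 1`.

(5) `(u + 1)`-wise independent groups of order at most `2 (2 n + 1) ^ u` exist. -/
theorem result (F : Type*) [Field F] (hF : (2 : F) ≠ 0) (n : ℕ) (hn : 1 ≤ n) :
    (∀ k m : ℕ, 2 * k ≤ m → m < n → ∀ C : Subgroup (Fin n ⊕ Fin n → ℤˣ), WiseIndep (4 * m) C →
      ∀ D : Set (Matrix (Fin n) (Fin n) ℤ), (∀ a σ, sp a σ ∈ D) →
      ∀ (V : Type) [Fintype V] (rank : V → ℕ) (g : V → Matrix (Fin n) (Fin n) ℤ → F),
      IsCircuit D k rank g → IsSymmetric D k g C →
      ∀ f : Matrix (Fin n) (Fin n) ℤ → F, Computes D k g f → FullDegree f →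
      ∃ d, m < 2 * d ∧ d ≤ m ∧ n.choose d ≤ Fintype.card V) ∧
    (∀ D : Set (Matrix (Fin n) (Fin n) ℤ), (∀ a σ, sp a σ ∈ D) →
      ∀ (V : Type) [Fintype V] (rank : V → ℕ) (g : V → Matrix (Fin n) (Fin n) ℤ → F),
      IsCircuit D (n / 3) rank g → IsSymmetric D (n / 3) g ⊤ →
      ∀ f : Matrix (Fin n) (Fin n) ℤ → F, Computes D (n / 3) g f → FullDegree f →
      n.choose (n / 3) ≤ Fintype.card V ∧
      3 ^ n ≤ (n + 1) * (2 ^ (n - n / 3) * Fintype.card V)) ∧
    (FullDegree (fun A : Matrix (Fin n) (Fin n) ℤ => ((A.permanent : ℤ) : F)) ∧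
      FullDegree (fun A : Matrix (Fin n) (Fin n) ℤ => if 0 < A.permanent then (1 : F) else 0) ∧
      FullDegree (fun A : Matrix (Fin n) (Fin n) ℤ => ((A.det : ℤ) : F))) ∧
    (∃ (V : Type) (_ : Fintype V) (rank : V → ℕ) (g : V → Matrix (Fin n) (Fin n) ℤ → F),
      Fintype.card V = n * 2 ^ n ∧ IsCircuit Set.univ 1 rank g ∧ IsSymmetric Set.univ 1 g ⊤ ∧
      Computes Set.univ 1 g (fun A => ((A.permanent : ℤ) : F))) ∧
    (∀ u : ℕ, 1 ≤ u → ∃ C : Subgroup (Fin n ⊕ Fin n → ℤˣ), WiseIndep (u + 1) C ∧
      Nat.card C ≤ 2 * (2 * n + 1) ^ u) := by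
  refine ⟨?_, ?_, ⟨fullDegree_permanent hF, fullDegree_sign hF hn, fullDegree_det hF⟩, ?_, ?_⟩
  · intro k m hkm hmn C hC D hD V _ rank g hg hs f hf hf0
    exact lower_bound hF hD hkm hmn hg C hC hs hf hf0
  · intro D hD V _ rank g hg hs f hf hf0
    obtain ⟨d, h3, h4, h5⟩ := lower_bound hF hD (m := 2 * n / 3) (by omega) (by omega) hg ⊤
      (H529R2.SymPer.wiseIndep_top _) hs hf hf0
    have h := (H529R2.SymPer.choose_ge (n := n) (k := n / 3) (d := d) (by omega) (by omega)).trans h5
    refine ⟨h, (H529R2.SymPer.three_pow_le n).trans ?_⟩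
    exact Nat.mul_le_mul_left _ (Nat.mul_le_mul_left _ h)
  · refine ⟨Fin n × (Fin n → ℤˣ), inferInstance, fun v => (v.1 : ℕ), gly F n, ?_, gly_circuit,
      gly_symmetric, gly_computes hF hn⟩
    simp only [Fintype.card_prod, Fintype.card_fin, Fintype.card_fun, Fintype.card_units_int]
  · intro u hu
    obtain ⟨C, h1, h2⟩ := H529R2.SymPer.exists_group (Fin n ⊕ Fin n) hu
    refine ⟨C, h1, ?_⟩
    rw [Fintype.card_sum, Fintype.card_fin, ← two_mul] at h2
    exact h2

end Pool.Agent.H870R2.Moved.SignSymmetricCounting381749
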